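import Pool.Agent.H38.Chv.Ser

/-!
From a small lacunary polynomial to a cut with prescribed Chebyshev moments.
-/

namespace Pool.Agent.H38.Chv

open Polynomial Finset Real

theorem fac {P : ℝ[X]} {ε : ℝ} (hε : ε * ε = 1) {r : ℕ} {y : ℕ → ℝ}
    (hy : ∀ i < r, ∀ j < r, i ≠ j → cos (y i) ≠ cos (y j)) (hs : ∀ i < r, sin (y i) ≠ 0)
    (hr : ∀ i < r, aeval (Complex.exp (y i * Complex.I)) P = 0) (h1 : P.eval (-ε) = 0)
    (hd : P.natDegree ≤ 1 + 2 * r) (h0 : P.coeff 0 = 1) :
    P = (1 + C ε * X) * ∏ i ∈ range r, qd ((1 + cos (y i)) / 2) := by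
  have q : ∀ i, qd ((1 + cos (y i)) / 2) = X ^ 2 - C (2 * cos (y i)) * X + 1 := fun i => by
    rw [qd]; congr 4; ring
  have d1 : ∏ i ∈ range r, qd ((1 + cos (y i)) / 2) ∣ P := by
    refine prod_dvd_of_coprime (fun i hi j hj hij => ?_) fun i hi => ?_
    · have hc : C (2 * cos (y j) - 2 * cos (y i))⁻¹ * (C (2 * cos (y j)) - C (2 * cos (y i))) =
          (1 : ℝ[X]) := by
        rw [← map_sub, ← map_mul, inv_mul_cancel₀, map_one]
        have := hy i (mem_range.1 hi) j (mem_range.1 hj) hij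
        intro h; exact this (by linarith)
      refine ⟨1 - (X - C (2 * cos (y i))) * C (2 * cos (y j) - 2 * cos (y i))⁻¹,
        (X - C (2 * cos (y i))) * C (2 * cos (y j) - 2 * cos (y i))⁻¹, ?_⟩
      simp only [q]
      linear_combination -(X - C (2 * cos (y i))) * X * hc
    · have := P.quadratic_dvd_of_aeval_eq_zero_im_ne_zero (hr i (mem_range.1 hi))
        (by rw [Complex.exp_ofReal_mul_I_im]; exact hs i (mem_range.1 hi))
      rwa [Complex.exp_ofReal_mul_I_re, Complex.norm_exp_ofReal_mul_I, one_pow, map_one,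
        ← q] at this
  have d2 : (X - C (-ε)) * ∏ i ∈ range r, qd ((1 + cos (y i)) / 2) ∣ P := by
    refine IsCoprime.mul_dvd ((irreducible_X_sub_C _).coprime_iff_not_dvd.2 ?_)
      (dvd_iff_isRoot.2 h1) d1
    rw [dvd_iff_isRoot, IsRoot, eval_prod, prod_eq_zero_iff]
    rintro ⟨i, hi, h⟩
    simp only [q, eval_add, eval_sub, eval_pow, eval_X, eval_mul, eval_C, eval_one] at h
    have h2 := sin_sq_add_cos_sq (y i)
    have h3 : ε * cos (y i) = -1 := by linear_combination h / 2 - hε / 2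
    refine hs i (mem_range.1 hi) (pow_eq_zero_iff two_ne_zero |>.1 ?_)
    linear_combination h2 + cos (y i) ^ 2 * hε - (ε * cos (y i) - 1) * h3
  have := eq_mul_leadingCoeff_of_monic_of_dvd_of_natDegree_le ((monic_X_sub_C _).mul
    (monic_prod_of_monic _ _ fun i _ => qd_monic _)) d2 (by
      rwa [(monic_X_sub_C _).natDegree_mul (monic_prod_of_monic _ _ fun i _ => qd_monic _),
        natDegree_X_sub_C, (refl_prod _ r).1])
  generalize P.leadingCoeff = c at this
  subst this
  simp [coeff_zero_eq_eval_zero, eval_prod, q] at h0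
  obtain rfl : ε = c := by linear_combination c * hε - ε * h0
  have e : C ε * C ε = (1 : ℝ[X]) := by rw [← map_mul, hε, map_one]
  rw [map_neg]
  linear_combination (∏ i ∈ range r, qd ((1 + cos (y i)) / 2)) * e

theorem pair_id (θ : ℝ) (J A B : ℕ) :
    Complex.exp (θ * Complex.I) ^ A + (-1) ^ J * Complex.exp (θ * Complex.I) ^ B =
      2 * Complex.exp ((((A + B : ℕ) * θ + J * π) / 2 : ℝ) * Complex.I) *
        (cos (((A - B) * θ - J * π) / 2) : ℝ) := by
  rw [Complex.ofReal_cos, mul_right_comm, Complex.two_cos, add_mul, ← Complex.exp_add,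
    ← Complex.exp_add, ← Complex.exp_nat_mul, ← Complex.exp_nat_mul, ← Complex.exp_pi_mul_I,
    ← Complex.exp_nat_mul, ← Complex.exp_add]
  congr 2 <;> push_cast <;> ring

/-- lacunary polynomial -/
noncomputable def bp (w : ℕ → ℝ) (p : ℕ → ℕ) (n : ℕ) : ℝ[X] := ∑ i ∈ range n, C (w i) * X ^ p i

theorem bp_nd {w p n τ} (hp : ∀ i < n, p i ≤ τ) : (bp w p n).natDegree ≤ τ :=
  natDegree_sum_le_of_forall_le _ _ fun i hi =>
    (natDegree_C_mul_X_pow_le _ _).trans (hp i (mem_range.1 hi))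

theorem bp_refl {w p n τ} (hp : ∀ i < n, p i ≤ τ) :
    reflect τ (bp w p n) = bp w (fun i => τ - p i) n := by
  induction n with
  | zero => simp [bp]
  | succ n ih =>
    have := ih fun i hi => hp i (by omega)
    simp only [bp, sum_range_succ] at this ⊢
    rw [reflect_add, this, reflect_C_mul_X_pow, revAt_le (hp n (by omega))]

theorem roots {N n : ℕ} (hN : 0 < N) {w c : ℕ → ℝ} (hw : ∑ i ∈ range n, |w i| ≤ 1 / 2) (J : ℕ) :
    ∃ θ ∈ Set.Ioo ((2 * J + 1) * π / (2 * N)) ((2 * J + 3) * π / (2 * N)),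
      cos ((N * θ - J * π) / 2) + ∑ i ∈ range n, w i * cos ((c i * θ - J * π) / 2) = 0 := by
  have hb : ∀ θ, |∑ i ∈ range n, w i * cos ((c i * θ - J * π) / 2)| ≤ 1 / 2 := fun θ =>
    (abs_sum_le_sum_abs _ _).trans ((sum_le_sum fun i _ => by
      rw [abs_mul]; exact mul_le_of_le_one_right (abs_nonneg _) (abs_cos_le_one _)).trans hw)
  have h2 : 1 < √2 := by rw [Real.lt_sqrt zero_le_one]; norm_num
  have hN' : (0 : ℝ) < N := by exact_mod_cast hN
  refine intermediate_value_Ioo' (f := fun θ => cos ((N * θ - J * π) / 2) +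
    ∑ i ∈ range n, w i * cos ((c i * θ - J * π) / 2)) ?_ (by fun_prop) ⟨?_, ?_⟩
  · gcongr; norm_num
  · have := abs_le.1 (hb ((2 * J + 3) * π / (2 * N)))
    rw [show (N * ((2 * J + 3) * π / (2 * N)) - J * π) / 2 = π - π / 4 by field_simp; ring,
      cos_pi_sub, cos_pi_div_four]
    linarith
  · have := abs_le.1 (hb ((2 * J + 1) * π / (2 * N)))
    rw [show (N * ((2 * J + 1) * π / (2 * N)) - J * π) / 2 = π / 4 by field_simp; ring,
      cos_pi_div_four]
    linarith

theorem cut_ex {r n : ℕ} {w : ℕ → ℝ} {p : ℕ → ℕ} (hp : ∀ i < n, p i < r)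
    (hw : ∑ i ∈ range n, |w i| ≤ 1 / 2) : ∃ x, IsCut (2 * r) x ∧
      1 + bp w (fun i => r - p i) n - X ^ (r + 1) * (X ^ r + bp w p n) = pN r x ∧
      1 + bp w (fun i => r - p i) n + X ^ (r + 1) * (X ^ r + bp w p n) = pD r x := by
  choose θ h1 h2 using roots (N := r + 1 + r) (by omega)
    (c := fun i => ((r + 1 + p i : ℕ) : ℝ) - ((r - p i : ℕ) : ℝ)) hw
  have hm : StrictMono θ := strictMono_nat_of_lt_succ fun J => (h1 J).2.trans (by
    have := (h1 (J + 1)).1
    rwa [Nat.cast_succ, show 2 * ((J : ℝ) + 1) + 1 = 2 * J + 3 by ring] at this)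
  have hI : ∀ J < 2 * r, θ J ∈ Set.Ioo 0 π := fun J hJ => ⟨lt_trans (by positivity) (h1 J).1,
    (h1 J).2.trans_le (by
      have : (J : ℝ) + 1 ≤ 2 * r := by exact_mod_cast hJ
      rw [div_le_iff₀ (by positivity), mul_comm π]
      push_cast
      gcongr; linarith)⟩
  have hc : ∀ J < 2 * r, ∀ K < J, cos (θ J) < cos (θ K) := fun J hJ K hK =>
    cos_lt_cos_of_nonneg_of_le_pi (hI K (by omega)).1.le (hI J hJ).2.le (hm hK)
  have hz : ∀ J, aeval (Complex.exp (θ J * Complex.I)) (X ^ (r + 1) * (X ^ r + bp w p n)) +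
      (-1) ^ J * aeval (Complex.exp (θ J * Complex.I)) (1 + bp w (fun i => r - p i) n) = 0 := by
    intro J
    have e := pair_id (θ J) J (r + 1 + r) 0
    have e2 := congrArg (fun t : ℝ => 2 * Complex.exp
      ((((r + 1 + r : ℕ) * θ J + J * π) / 2 : ℝ) * Complex.I) * t) (h2 J)
    simp only [Complex.ofReal_add, Complex.ofReal_sum, mul_add, mul_sum, Complex.ofReal_zero,
      mul_zero] at e2
    rw [pow_zero, add_zero, Nat.cast_zero, sub_zero] at e
    rw [← e2, ← e]
    simp only [bp, map_mul, map_add, map_pow, aeval_X, map_sum, aeval_C, map_one, mul_add,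
      mul_sum, ← pow_add]
    rw [add_add_add_comm, ← sum_add_distrib]
    refine congrArg _ (sum_congr rfl fun i hi => ?_)
    have e := pair_id (θ J) J (r + 1 + p i) (r - p i)
    rw [show r + 1 + p i + (r - p i) = r + 1 + r by have := hp i (mem_range.1 hi); omega] at e
    rw [Complex.ofReal_mul, mul_left_comm _ (w i : ℂ), ← e, pow_add _ (r + 1) (p i)]
    simp only [Complex.coe_algebraMap]
    ring
  have dG := bp_nd (w := w) (p := fun i => r - p i) (n := n) (τ := r) fun i _ => Nat.sub_le _ _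
  have dH : (X ^ (r + 1) * (X ^ r + bp w p n)).natDegree ≤ r + 1 + r :=
    nd_mul (natDegree_X_pow_le _) (natDegree_add_le_of_degree_le (natDegree_X_pow_le _)
      (bp_nd fun i hi => (hp i hi).le))
  have dG' : (1 + bp w (fun i => r - p i) n).natDegree ≤ r :=
    natDegree_add_le_of_degree_le (by simp) dG
  have key : ∀ (ε : ℝ) (d : ℕ), ε * ε = 1 → d = 1 ∨ d = 2 → (ε : ℂ) = (-1) ^ d →
      1 + bp w (fun i => r - p i) n + C ε * (X ^ (r + 1) * (X ^ r + bp w p n)) =
        (1 + C ε * X) * ∏ i ∈ range r, qd (if 2 * i + d = 0 then 0 else if 2 * i + d ≤ 2 * r then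
          (1 + cos (θ (2 * r - (2 * i + d)))) / 2 else 1) := by
    intro ε d hε hd he
    rw [prod_congr rfl fun i hi => by
      rw [if_neg (by omega), if_pos (by have := mem_range.1 hi; omega)]]
    refine fac hε (y := fun i => θ (2 * r - (2 * i + d))) (fun i hi j hj hij => ?_)
      (fun i hi => (sin_pos_of_mem_Ioo (hI _ (by omega))).ne') (fun i hi => ?_) ?_ ?_ ?_
    · rcases lt_or_gt_of_ne hij with h | h
      · exact (hc _ (by omega) _ (by omega)).ne
      · exact (hc _ (by omega) _ (by omega)).ne'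
    · have := hz (2 * r - (2 * i + d))
      have e : (-1 : ℂ) ^ d * (-1) ^ (2 * r - (2 * i + d)) = 1 := by
        rw [← pow_add, show d + (2 * r - (2 * i + d)) = 2 * (r - i) by omega, pow_mul]; simp
      rw [map_add _ _ (C ε * _), map_mul _ (C ε), aeval_C, Complex.coe_algebraMap, he]
      linear_combination (-1) ^ d * this - aeval _ (1 + bp w (fun i => r - p i) n) * e
    · have e : ∀ k, ε * (-ε) ^ (2 * k + 1) = -1 := fun k => by
        rw [pow_succ, pow_mul, neg_sq, sq, hε, one_pow]; linear_combination -hε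
      simp only [bp, eval_add, eval_mul, eval_C, eval_pow, eval_X, eval_one, eval_finsetSum,
        mul_add, mul_sum, ← pow_add]
      rw [add_add_add_comm, ← sum_add_distrib, show r + 1 + r = 2 * r + 1 by omega, e,
        add_neg_cancel, zero_add]
      refine sum_eq_zero fun i hi => ?_
      have h3 : (-ε) ^ (r + 1) * (-ε) ^ p i = (-ε) ^ (r - p i) * (-ε) ^ (2 * p i + 1) := by
        rw [← pow_add, ← pow_add]; congr 1; have := hp i (mem_range.1 hi); omega
      linear_combination w i * ε * h3 + w i * (-ε) ^ (r - p i) * e (p i)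
    · exact natDegree_add_le_of_degree_le (by omega) ((natDegree_C_mul_le _ _).trans (by omega))
    · simp only [coeff_zero_eq_eval_zero, bp, eval_add, eval_mul, eval_C, eval_pow, eval_X,
        eval_one, eval_finsetSum]
      rw [sum_eq_zero fun i hi => by
        rw [zero_pow (by have := hp i (mem_range.1 hi); omega), mul_zero]]
      simp
  refine ⟨fun j => if j = 0 then 0 else if j ≤ 2 * r then (1 + cos (θ (2 * r - j))) / 2 else 1,
    ⟨rfl, by simp, fun j hj => ?_⟩, ?_, ?_⟩
  · have := neg_one_le_cos (θ (2 * r - (j + 1)))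
    have := cos_le_one (θ (2 * r - j))
    simp only
    rw [if_neg (Nat.succ_ne_zero j), if_pos hj]
    split_ifs with a b c <;> try linarith
    have := hc (2 * r - j) (by omega) (2 * r - (j + 1)) (by omega)
    linarith
  · rw [pN, ← key (-1) 1 (by simp) (by simp) (by simp)]; simp [sub_eq_add_neg]
  · rw [pD, ← key 1 2 (by simp) (by simp) (by simp)]; simp

theorem complete {τ l n : ℕ} (hl : 0 < l) {w : ℕ → ℝ} {p : ℕ → ℕ} (hp : ∀ i < n, p i ≤ τ)
    (hw : ∑ i ∈ range n, |w i| ≤ 1 / 2) : ∃ x, IsCut (2 * (l + τ)) x ∧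
      Agree (l + τ) x (X ^ (l + τ + 1) * (bp w p n + X ^ l * (X ^ τ - bp w p n *
        reflect τ (bp w p n)))) (l + τ + 1 + (l + l)) := by
  obtain ⟨x, hx, hN, hD⟩ := cut_ex (r := l + τ) (p := p) (fun i hi => by have := hp i hi; omega) hw
  have e0 : bp w (fun i => l + τ - p i) n = X ^ l * reflect τ (bp w p n) := by
    rw [← refl_up _ _ (bp_nd hp), bp_refl fun i hi => by have := hp i hi; omega]
  rw [e0] at hN hD
  obtain ⟨g0, B, e, -, hB⟩ := rel (s := l + τ + 1) hN hD
  generalize reflect τ (bp w p n) = β' at *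
  generalize bp w p n = β at *
  have u : IsUnit ((1 + X ^ l * β' : ℝ[X]) : PowerSeries ℝ) := by
    rw [PowerSeries.isUnit_iff_constantCoeff, ← PowerSeries.coeff_zero_eq_constantCoeff_apply,
      coeff_coe, g0]; simp
  have h1 : PowerSeries.X ^ (l + τ + 1 + (l + l)) ∣
      B - ((X ^ (l + τ + 1) * (β + X ^ l * (X ^ τ - β * β')) : ℝ[X]) : PowerSeries ℝ) := by
    rw [← u.dvd_mul_right, sub_mul, e, ← Polynomial.coe_mul, ← Polynomial.coe_sub]
    refine ⟨((β * β' - X ^ τ) * β' : ℝ[X]), ?_⟩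
    rw [← Polynomial.coe_X, ← Polynomial.coe_pow, ← Polynomial.coe_mul]
    congr 1; ring
  have h2 := PowerSeries.X_pow_dvd_iff.1 h1
  simp only [map_sub, coeff_coe, sub_eq_zero] at h2
  refine ⟨x, hx, fun m hm => ?_⟩
  rw [hB (.inr (PowerSeries.X_pow_dvd_iff.2 fun m hm => by
    rw [h2 m (by omega), coeff_X_pow_mul', if_neg (by omega)])) m (by omega), h2 m hm]

end Pool.Agent.H38.Chv
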