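import Pool.Agent.H38.ER.Defs

/-!
Consensus halving with polynomial valuation functions.
-/

namespace Pool.Agent.H38.Chv

open Pool.Agent.H38.NP Finset

/-- The value at `t` of the polynomial with coefficient list `F` (constant term first). -/
noncomputable def pev (F : List ℚ) (t : ℝ) : ℝ :=
  ∑ i ∈ range F.length, (F.getD i 0 : ℝ) * t ^ i

/-- `x 1 ≤ … ≤ x k` is a `k`-cut of `[0, 1]`, with `x 0 = 0` and `x (k + 1) = 1`. -/
def IsCut (k : ℕ) (x : ℕ → ℝ) : Prop := x 0 = 0 ∧ x (k + 1) = 1 ∧ ∀ j ≤ k, x j ≤ x (j + 1)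

/-- `F (A₊) = F (A₋)`: the pieces `[x j, x (j + 1)]` with even `j` form `A₊`, those with odd `j`
form `A₋`. -/
def Halves (F : ℝ → ℝ) (k : ℕ) (x : ℕ → ℝ) : Prop :=
  ∑ j ∈ range (k + 1) with Even j, (F (x (j + 1)) - F (x j)) =
    ∑ j ∈ range (k + 1) with Odd j, (F (x (j + 1)) - F (x j))

/-- The polynomial version of Consensus Halving: polynomials and the number of cuts. -/
def CH (p : List (List ℚ) × Bin) : Prop :=
  ∃ x, IsCut p.2.val x ∧ ∀ F ∈ p.1, Halves (pev F) p.2.val x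

end Pool.Agent.H38.Chv
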