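import Pool.Agent.H38.Chv.Cmp
import Pool.Agent.H38.ER.Big

/-!
Linear conditions on Chebyshev moments as increasing polynomial valuations.
-/

namespace Pool.Agent.H38.Chv

open Polynomial Pool.Agent.H38.ER
open Pool.Agent.H38.NP hiding X

theorem ch_nd : ∀ m, (chP m).natDegree ≤ m
  | 0 => by simp [chP]
  | 1 => by unfold chP; compute_degree
  | m + 2 => by
    have h1 := ch_nd (m + 1)
    have h2 := ch_nd m
    have h3 := natDegree_C_mul_le 4 (X * chP (m + 1))
    have h4 := natDegree_C_mul_le 2 (chP (m + 1))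
    have h5 := natDegree_mul_le (p := X) (q := chP (m + 1))
    have h6 := natDegree_sub_le (C 4 * (X * chP (m + 1))) (C 2 * chP (m + 1))
    have h7 := natDegree_sub_le (C 4 * (X * chP (m + 1)) - C 2 * chP (m + 1)) (chP m)
    rw [natDegree_X] at h5
    rw [chP]; omega

theorem ch_bd : ∀ m k, ((chP m).coeff k).natAbs ≤ 8 ^ m
  | 0, k => by simp only [chP, coeff_one]; split_ifs <;> simp
  | 1, k => by
    simp only [chP, coeff_one, coeff_sub, coeff_C_mul, coeff_X]; split_ifs <;> simp
  | m + 2, k => by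
    have h1 := ch_bd (m + 1) k
    have h2 := ch_bd m k
    have h3 : ((X * chP (m + 1)).coeff k).natAbs ≤ 8 ^ (m + 1) := by
      cases k with
      | zero => simp
      | succ k => rw [coeff_X_mul]; exact ch_bd _ _
    rw [chP, coeff_sub, coeff_sub, coeff_C_mul, coeff_C_mul, pow_succ, pow_succ]
    rw [pow_succ] at h1 h3
    omega

/-- coefficient list -/
noncomputable def cl (K m : ℕ) : List ℤ := (List.range K).map (chP m).coeff

theorem cl_get {K m k} (h : k < K) : (cl K m).getD k 0 = (chP m).coeff k := by simp [cl, h]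

@[fun_prop] theorem pt_cl {α : Type} [Enc α] {K m : α → ℕ} (hK : PT K) (hm : PT m) :
    PT fun a => cl (K a) (m a) := by
  have key : ∀ K i, (fun s : List ℤ × List ℤ => (s.2, (List.range K).map fun k =>
      4 * (0 :: s.2).getD k 0 - 2 * s.2.getD k 0 - s.1.getD k 0))^[i]
      ((List.range K).map fun k => [1].getD k 0, (List.range K).map fun k => [-1, 2].getD k 0) =
      (cl K i, cl K (i + 1)) := fun K i => by
    induction i with
    | zero =>
      refine Prod.ext (List.map_congr_left fun k _ => ?_) (List.map_congr_left fun k _ => ?_)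
      · cases k <;> simp [chP, coeff_one]
      · rcases k with _ | _ | k <;> simp [chP, coeff_one, coeff_X]
    | succ i ih =>
      rw [Function.iterate_succ_apply', ih]
      refine Prod.ext rfl (List.map_congr_left fun k hk => ?_)
      have hk := List.mem_range.1 hk
      rw [chP, coeff_sub, coeff_sub, coeff_C_mul, coeff_C_mul, cl_get hk, cl_get hk]
      cases k with
      | zero => simp
      | succ k => rw [List.getD_cons_succ, cl_get (by omega), coeff_X_mul]
  have hb : ∀ K m i, i ≤ m + 1 → sz (cl K i) ≤ K * (2 * (3 * m + 7) + 1) := fun K m i hi => by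
    refine (sz_le_of_forall (B := 3 * m + 7) fun z hz => ?_).trans (by simp [cl])
    obtain ⟨k, -, rfl⟩ := List.mem_map.1 hz
    refine sz_int_le (k := 3 * m + 4) ((ch_bd i k).trans_lt ?_)
    rw [show 8 = 2 ^ 3 from rfl, ← pow_mul]
    exact Nat.pow_lt_pow_right one_lt_two (by omega)
  refine (PT.iterate (step := fun a (s : List ℤ × List ℤ) => (s.2, (List.range (K a)).map fun k =>
      4 * (0 :: s.2).getD k 0 - 2 * s.2.getD k 0 - s.1.getD k 0)) (by fun_prop) hm
    (init := fun a => ((List.range (K a)).map fun k => [1].getD k 0,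
      (List.range (K a)).map fun k => [-1, 2].getD k 0)) (by fun_prop)
    (B := fun a => 3 * (K a * (2 * (3 * m a + 7) + 1)) + 1) (PT.nat_pb (by fun_prop))
    fun a i hi => ?_).fst.of_eq fun a => by rw [key]
  have := hb (K a) (m a) i (by omega)
  have := hb (K a) (m a) (i + 1) (by omega)
  rw [key, sz_prod]; dsimp only; omega

/-- product of the positive integers below `M` other than `m` -/
def wm (M m : ℕ) : ℤ :=
  ((List.range M).map fun i : ℕ => if i = 0 ∨ i = m then 1 else (i : ℤ)).prod

theorem wm_eq (M m : ℕ) :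
    wm M m = ∏ i ∈ Finset.range M, if i = 0 ∨ i = m then 1 else (i : ℤ) := rfl

theorem wm_mul {M m} (h0 : 0 < m) (h : m < M) : wm M m * m = wm M 0 := by
  have : (m : ℤ) = ∏ i ∈ Finset.range M, if i = m then (i : ℤ) else 1 := by simp [h]
  rw [wm_eq, wm_eq, this, ← Finset.prod_mul_distrib]
  refine Finset.prod_congr rfl fun i _ => ?_
  split_ifs <;> first | omega | simp

theorem wm_ne (M : ℕ) : wm M 0 ≠ 0 := by
  rw [wm_eq]; exact Finset.prod_ne_zero_iff.2 fun i _ => by split_ifs <;> omega

/-- integer coefficients of a combination of Chebyshev polynomials -/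
noncomputable def co (M : ℕ) (L : List (ℤ × ℕ)) (k : ℕ) : ℤ :=
  (L.map fun t => t.1 * wm M t.2 * (cl M t.2).getD k 0).sum

/-- slope that makes the combination increasing -/
noncomputable def lam (M : ℕ) (L : List (ℤ × ℕ)) : ℤ :=
  ((List.range M).map fun k : ℕ => (k : ℤ) * (co M L k * co M L k)).sum

/-- the valuation attached to a linear condition -/
noncomputable def val (M : ℕ) (L : List (ℤ × ℕ)) : List ℚ :=
  (List.range M).map fun k => ((co M L k + if k = 1 then lam M L else 0 : ℤ) : ℚ)

@[fun_prop] theorem pt_val {α : Type} [Enc α] {M : α → ℕ} {L : α → List (ℤ × ℕ)} (hM : PT M)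
    (hL : PT L) : PT fun a => val (M a) (L a) := by
  have h1 : PT fun p : ℕ × ℕ => wm p.1 p.2 := by unfold wm; fun_prop
  have h2 : PT fun p : (ℕ × List (ℤ × ℕ)) × ℕ => co p.1.1 p.1.2 p.2 := by
    have : PT fun p : ((ℕ × List (ℤ × ℕ)) × ℕ) × ℤ × ℕ => wm p.1.1.1 p.2.2 :=
      h1.comp (g := fun p : ((ℕ × List (ℤ × ℕ)) × ℕ) × ℤ × ℕ => (p.1.1.1, p.2.2)) (by fun_prop)
    exact pt_zsum (PT.map (pt_zmul (pt_zmul (by fun_prop) this) (by fun_prop)) (by fun_prop))
  have h3 : PT fun p : ℕ × List (ℤ × ℕ) => lam p.1 p.2 :=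
    pt_zsum (PT.map (pt_zmul (by fun_prop) (pt_zmul h2 h2)) (by fun_prop))
  have h4 : PT fun p : ℕ × List (ℤ × ℕ) => val p.1 p.2 :=
    PT.map (pt_rat (pt_zadd h2 (PT.ite (by fun_prop) (h3.comp (PT.fst PT.id')) (PT.const _))))
      (by fun_prop)
  exact h4.comp (hM.mk hL)

open Finset

theorem pev_val {M} (hM : 1 < M) (L t) :
    pev (val M L) t = ∑ k ∈ range M, (co M L k : ℝ) * t ^ k + lam M L * t := by
  have : (lam M L : ℝ) * t = ∑ k ∈ range M, if k = 1 then lam M L * t ^ k else 0 := by simp [hM]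
  rw [this, ← sum_add_distrib, pev, show (val M L).length = M by simp [val]]
  refine sum_congr rfl fun k hk => ?_
  have hk := mem_range.1 hk
  split_ifs with h <;> simp [val, hk, h, add_mul]
  simp [h ▸ hk, add_mul]

theorem val_mono {M} (hM : 1 < M) (L) : MonotoneOn (pev (val M L)) (Set.Icc 0 1) := by
  intro x hx y hy h
  have e : (lam M L : ℝ) = ∑ k ∈ range M, (k : ℝ) * (co M L k * co M L k) := by
    rw [show lam M L = ∑ k ∈ range M, (k : ℤ) * (co M L k * co M L k) from rfl]; push_cast; rfl
  rw [pev_val hM, pev_val hM, e, sum_mul, sum_mul, ← sum_add_distrib, ← sum_add_distrib]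
  refine sum_le_sum fun k _ => ?_
  have h1 : x ^ k ≤ y ^ k := pow_le_pow_left₀ hx.1 h k
  have h2 : y ^ k - x ^ k ≤ (y - x) * k := by
    refine (le_abs_self _).trans ((abs_pow_sub_pow_le y x k).trans ?_)
    rw [abs_of_nonneg (sub_nonneg.2 h), abs_of_nonneg hx.1, abs_of_nonneg hy.1]
    exact mul_le_of_le_one_right (by have := sub_nonneg.2 h; positivity)
      (pow_le_one₀ (le_max_of_le_left hy.1) (max_le hy.2 hx.2))
  have h3 : -(co M L k : ℝ) ≤ co M L k * co M L k := by
    exact_mod_cast (by nlinarith [Int.le_self_sq (-co M L k)] : -co M L k ≤ co M L k * co M L k)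
  nlinarith [mul_le_mul_of_nonneg_right h3 (sub_nonneg.2 h1),
    mul_le_mul_of_nonneg_left h2 (mul_self_nonneg (co M L k : ℝ))]

/-- normalised Chebyshev moments -/
noncomputable def mo (r : ℕ) (x : ℕ → ℝ) (m : ℕ) : ℝ := phi (tau m) r x / (2 * m)

/-- value of a linear form -/
def lv (e : ℕ → ℝ) (L : List (ℤ × ℕ)) : ℝ := (L.map fun t => (t.1 : ℝ) * e t.2).sum

theorem phi_lin (F G : ℝ → ℝ) (a : ℝ) (r x) :
    phi (fun t => a * F t + G t) r x = a * phi F r x + phi G r x := by
  simp only [phi, mul_add, mul_sub, sum_sub_distrib, sum_add_distrib, ← mul_sum]; ring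

theorem phi_val {M r x} (hM : 1 < M) (h1 : phi id r x = 0) {L : List (ℤ × ℕ)}
    (hL : ∀ t ∈ L, 0 < t.2 ∧ t.2 < M) : phi (pev (val M L)) r x = 0 ↔ lv (mo r x) L = 0 := by
  have key : phi (fun t => ∑ k ∈ range M, (co M L k : ℝ) * t ^ k) r x =
      2 * wm M 0 * lv (mo r x) L := by
    induction L with
    | nil => simp [co, lv, phi]
    | cons t L ih =>
      obtain ⟨h2, h3⟩ := hL t (by simp)
      have : (fun y : ℝ => ∑ k ∈ range M, (co M (t :: L) k : ℝ) * y ^ k) = fun y =>
          (t.1 * wm M t.2) * tau t.2 y + ∑ k ∈ range M, (co M L k : ℝ) * y ^ k := by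
        funext y
        rw [tau, aeval_eq_sum_range' ((ch_nd _).trans_lt h3), mul_sum, ← sum_add_distrib]
        refine sum_congr rfl fun k hk => ?_
        simp only [co, List.map_cons, List.sum_cons, cl_get (mem_range.1 hk)]
        simp; ring
      rw [this, phi_lin, ih fun t ht => hL t (by simp [ht]), lv, lv, List.map_cons, List.sum_cons,
        mul_add, ← wm_mul h2 h3, mo]
      have : (t.2 : ℝ) ≠ 0 := by positivity
      push_cast; field_simp
  have := phi_lin id (fun t => ∑ k ∈ range M, (co M L k : ℝ) * t ^ k) (lam M L) r x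
  rw [show pev (val M L) = fun t => lam M L * id t + ∑ k ∈ range M, (co M L k : ℝ) * t ^ k from
    _root_.funext fun t => (pev_val hM L t).trans (add_comm _ _), this, h1, key]
  simp [wm_ne]

theorem halves_iff {r x} (hx : IsCut (2 * r) x) (F) : Halves F (2 * r) x ↔ phi F r x = 0 := by
  have : ∀ r, ∑ j ∈ range (2 * r + 1) with Even j, (F (x (j + 1)) - F (x j)) -
      ∑ j ∈ range (2 * r + 1) with Odd j, (F (x (j + 1)) - F (x j)) = F (x (2 * r + 1)) - F (x 0) +
        2 * ∑ i ∈ range r, (F (x (2 * i + 1)) - F (x (2 * i + 2))) := fun r => by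
    rw [sum_filter, sum_filter]
    induction r with
    | zero => simp
    | succ r ih =>
      rw [show 2 * (r + 1) + 1 = 2 * r + 1 + 1 + 1 by omega]
      simp only [sum_range_succ _ (2 * r + 1 + 1), sum_range_succ _ (2 * r + 1),
        sum_range_succ _ r]
      rw [if_neg (by simp [parity_simps]), if_pos (by simp [parity_simps]),
        if_pos (by simp [parity_simps]), if_neg (by simp [parity_simps])]
      linear_combination ih
  rw [Halves, ← sub_eq_zero, this, hx.1, hx.2.1, phi]

end Pool.Agent.H38.Chv
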