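import Pool.Agent.H38.Chv.Pol
import Pool.Agent.H38.ER.Ball

/-!
The reduction from bounded quadratic systems to polynomial consensus halving.
-/

namespace Pool.Agent.H38.Chv

open Polynomial Pool.Agent.H38.ER Finset
open Pool.Agent.H38.NP hiding X

/-- Golomb ruler -/
def ps (n i : ℕ) : ℕ := i + 4 * n * (i * i)

theorem ps_mono (n : ℕ) : StrictMono (ps n) := fun i j h =>
  Nat.add_lt_add_of_lt_of_le h (Nat.mul_le_mul_left _ (Nat.mul_le_mul h.le h.le))

theorem ps_gol {n i j k l : ℕ} (hi : i < 2 * n) (hj : j < 2 * n) (hk : k < 2 * n) (hl : l < 2 * n)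
    (h0 : k ≠ l) (h : ps n i + ps n l = ps n k + ps n j) : i = k ∧ j = l := by
  have e : (i + l) + 4 * n * (i * i + l * l) = (k + j) + 4 * n * (k * k + j * j) := by
    unfold ps at h; linarith
  have h1 := congrArg (· % (4 * n)) e
  simp only [Nat.add_mul_mod_self_left] at h1
  rw [Nat.mod_eq_of_lt (by omega), Nat.mod_eq_of_lt (by omega)] at h1
  have h2 : i * i + l * l = k * k + j * j :=
    Nat.eq_of_mul_eq_mul_left (by omega : 0 < 4 * n) (by omega)
  have h3 : (i : ℤ) = k := by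
    have h1 : (j : ℤ) = i + l - k := by omega
    have h2 : (i : ℤ) * i + l * l = k * k + j * j := by exact_mod_cast h2
    have h4 : ((i : ℤ) - k) * (2 * (k - l)) = 0 := by rw [h1] at h2; linear_combination h2
    rcases mul_eq_zero.1 h4 with h | h <;> omega
  omega

theorem bp_co (w p n m) : (bp w p n).coeff m = ∑ i ∈ range n, if m = p i then w i else 0 := by
  simp [bp, coeff_X_pow]

theorem bp_at {w p n i} (hp : Function.Injective p) (hi : i < n) : (bp w p n).coeff (p i) = w i := by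
  simp [bp_co, hp.eq_iff, hi]

/-- the autocorrelation polynomial -/
noncomputable def aut (n : ℕ) (w : ℕ → ℝ) : ℝ[X] :=
  X ^ ps n (2 * n) - bp w (ps n) (2 * n) * reflect (ps n (2 * n)) (bp w (ps n) (2 * n))

theorem ps_le {n i} (h : i < 2 * n) : ps n i ≤ ps n (2 * n) := (ps_mono n h).le

theorem aut_co (n w m) : (aut n w).coeff m = (if m = ps n (2 * n) then 1 else 0) -
    ∑ i ∈ range (2 * n), ∑ j ∈ range (2 * n),
      if m = ps n i + (ps n (2 * n) - ps n j) then w i * w j else 0 := by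
  rw [aut, bp_refl fun i => ps_le, bp, bp, sum_mul_sum, coeff_sub, coeff_X_pow, finsetSum_coeff]
  refine congrArg _ (sum_congr rfl fun i _ => ?_)
  rw [finsetSum_coeff]
  refine sum_congr rfl fun j _ => ?_
  rw [mul_mul_mul_comm, ← pow_add, ← map_mul, coeff_C_mul_X_pow]

theorem aut_off {n k l} (w) (hk : k < 2 * n) (hl : l < 2 * n) (h : k ≠ l) :
    (aut n w).coeff (ps n k + (ps n (2 * n) - ps n l)) = -(w k * w l) := by
  have h1 := ps_le hl
  have h2 := (ps_mono n).injective.ne h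
  rw [aut_co, if_neg (by omega), zero_sub, sum_eq_single_of_mem k (mem_range.2 hk),
    sum_eq_single_of_mem l (mem_range.2 hl), if_pos rfl]
  · intro j hj hjl
    have := ps_le (mem_range.1 hj)
    exact if_neg fun e => hjl ((ps_mono n).injective (by omega))
  · refine fun i hi hik => sum_eq_zero fun j hj => if_neg fun e => hik ?_
    have := ps_le (mem_range.1 hj)
    exact (ps_gol (mem_range.1 hi) (mem_range.1 hj) hk hl h (by omega)).1

theorem aut_ctr (n w) : (aut n w).coeff (ps n (2 * n)) =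
    1 - ∑ i ∈ range n, (w (2 * i) * w (2 * i) + w (2 * i + 1) * w (2 * i + 1)) := by
  have : ∀ n, ∑ i ∈ range (2 * n), w i * w i =
      ∑ i ∈ range n, (w (2 * i) * w (2 * i) + w (2 * i + 1) * w (2 * i + 1)) := fun n => by
    induction n with
    | zero => simp
    | succ n ih => rw [mul_add, mul_one, sum_range_succ, sum_range_succ, ih, sum_range_succ]; ring
  rw [aut_co, if_pos rfl, ← this]
  refine congrArg _ (sum_congr rfl fun i hi => ?_)
  have h1 := ps_le (mem_range.1 hi)
  rw [sum_eq_single_of_mem i hi, if_pos (by omega)]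
  intro j hj hji
  have := ps_le (mem_range.1 hj)
  exact if_neg fun e => hji ((ps_mono n).injective (by omega))

/-- block length -/
def bl (n : ℕ) : ℕ := 3 * ps n (2 * n) + 1
/-- start of the first block -/
def st (n : ℕ) : ℕ := bl n + ps n (2 * n) + 1
/-- number of coefficients used -/
def mx (n : ℕ) : ℕ := st n + (bl n + bl n)
/-- index of a product -/
def qi (n a b : ℕ) : ℕ := st n + bl n + (ps n (2 * a) + (ps n (2 * n) - ps n (2 * b + 1)))

/-- the linear conditions -/
def sys (n : ℕ) (c : List Q4) : List (List (ℤ × ℕ)) :=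
  ((List.range (mx n)).filter fun m => decide (0 < m) &&
    !((List.range (2 * n)).map fun i => st n + ps n i).contains m &&
    (decide (m < st n + bl n) || decide (st n + bl n + (ps n (2 * n) + ps n (2 * n)) < m))).map
      (fun m => [(1, m)]) ++
  (List.range (ps n (2 * n) + ps n (2 * n) + 1)).map (fun j => [(1, st n + bl n + j),
    (-1, st n + bl n + (ps n (2 * n) + ps n (2 * n) - j))]) ++
  ((List.range n).map (fun i => [(1, st n + ps n (2 * i)), (-1, st n + ps n (2 * i + 1))]) ++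
  c.map (fun q => [(1, qi n q.1 q.2.1), (1, qi n q.2.2.1 0), (-1, qi n q.2.2.2 0)]) ++
  [(((16 * (n * n) : ℕ) : ℤ), qi n 0 0) :: (1, st n + bl n + ps n (2 * n)) ::
    (List.range n).map fun i => (-2, qi n i i)])

theorem sys_iff {n c} {P : List (ℤ × ℕ) → Prop} : (∀ L ∈ sys n c, P L) ↔
    ((∀ m < mx n, 0 < m → (∀ i < 2 * n, m ≠ st n + ps n i) → (m < st n + bl n ∨
      st n + bl n + (ps n (2 * n) + ps n (2 * n)) < m) → P [(1, m)]) ∧
    ∀ j ≤ ps n (2 * n) + ps n (2 * n), P [(1, st n + bl n + j),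
      (-1, st n + bl n + (ps n (2 * n) + ps n (2 * n) - j))]) ∧
    ((∀ i < n, P [(1, st n + ps n (2 * i)), (-1, st n + ps n (2 * i + 1))]) ∧
    ∀ q ∈ c, P [(1, qi n q.1 q.2.1), (1, qi n q.2.2.1 0), (-1, qi n q.2.2.2 0)]) ∧
    P ((((16 * (n * n) : ℕ) : ℤ), qi n 0 0) :: (1, st n + bl n + ps n (2 * n)) ::
      (List.range n).map fun i => (-2, qi n i i)) := by
  simp only [sys, List.forall_mem_append, List.forall_mem_map, List.forall_mem_singleton]
  simp only [List.mem_filter, List.mem_range, Nat.lt_succ_iff, Bool.and_eq_true, decide_eq_true_eq,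
    Bool.or_eq_true, Bool.not_eq_true', List.contains_eq_mem, decide_eq_false_iff_not,
    List.mem_map, not_exists, not_and, and_imp, ne_eq, eq_comm (a := st n + ps n _)]

theorem qi_bd {n a b} (ha : a < n) : 0 < qi n a b ∧ qi n a b < mx n := by
  have := ps_le (n := n) (i := 2 * a) (by omega)
  simp only [qi, mx, st, bl]; omega

theorem sys_bd {n c} (hn : 0 < n) (hc : Bd n c) : ∀ L ∈ sys n c, ∀ t ∈ L, 0 < t.2 ∧ t.2 < mx n := by
  rw [sys_iff]
  simp only [List.forall_mem_cons, List.forall_mem_map, List.mem_range, List.not_mem_nil,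
    IsEmpty.forall_iff, implies_true, and_true]
  refine ⟨⟨fun m a b _ _ => ⟨b, a⟩, fun j hj => ?_⟩, ⟨fun i hi => ?_, fun q hq => ?_⟩,
    qi_bd hn, ?_, fun i hi => qi_bd hi⟩
  · simp only [mx, st, bl]; omega
  · have := ps_le (n := n) (i := 2 * i) (by omega)
    have := ps_le (n := n) (i := 2 * i + 1) (by omega)
    simp only [mx, st, bl]; omega
  · obtain ⟨a, -, b, d⟩ := hc q hq
    exact ⟨qi_bd a, qi_bd b, qi_bd d⟩
  · simp only [mx, st, bl]; omega

/-- the target polynomial -/
noncomputable def tg (n : ℕ) (w : ℕ → ℝ) (β : ℝ[X]) : ℝ[X] :=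
  X ^ st n * (bp w (ps n) (2 * n) + X ^ bl n * β)

theorem tg1 {n i} (w β) (hi : i < 2 * n) : (tg n w β).coeff (st n + ps n i) = w i := by
  have := ps_le hi
  rw [tg, add_comm (st n), coeff_X_pow_mul, coeff_add, bp_at (ps_mono n).injective hi,
    coeff_X_pow_mul', if_neg (by unfold bl; omega), add_zero]

theorem tg2 (n w β j) : (tg n w β).coeff (st n + bl n + j) = β.coeff j := by
  rw [tg, add_assoc, add_comm (st n), coeff_X_pow_mul, coeff_add, add_comm (bl n), coeff_X_pow_mul,
    coeff_eq_zero_of_natDegree_lt ((bp_nd fun i => ps_le).trans_lt (by unfold bl; omega)), zero_add]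

theorem tg3 {n m} (w) {β : ℝ[X]} (hβ : β.natDegree ≤ ps n (2 * n) + ps n (2 * n))
    (h1 : ∀ i < 2 * n, m ≠ st n + ps n i) (h2 : m < st n + bl n ∨
      st n + bl n + (ps n (2 * n) + ps n (2 * n)) < m) : (tg n w β).coeff m = 0 := by
  rw [tg, coeff_X_pow_mul']
  split_ifs with h
  · rw [coeff_add, bp_co, sum_eq_zero fun i hi => if_neg fun e => h1 i (mem_range.1 hi) (by omega),
      zero_add, coeff_X_pow_mul']
    split_ifs
    · exact coeff_eq_zero_of_natDegree_lt (by omega)
    · rfl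
  · rfl

theorem eqs_iff {n c σ w} (hn : 0 < n) (hc : Bd n c) (hσ : σ ≠ 0) {e : ℕ → ℝ}
    (he : ∀ m, 0 < m → m < mx n → e m = (tg n w (C σ * aut n w)).coeff m) :
    (((∀ i < n, lv e [(1, st n + ps n (2 * i)), (-1, st n + ps n (2 * i + 1))] = 0) ∧
    ∀ q ∈ c, lv e [(1, qi n q.1 q.2.1), (1, qi n q.2.2.1 0), (-1, qi n q.2.2.2 0)] = 0) ∧
    lv e ((((16 * (n * n) : ℕ) : ℤ), qi n 0 0) :: (1, st n + bl n + ps n (2 * n)) ::
      (List.range n).map fun i => (-2, qi n i i)) = 0) ↔
    ((∀ i < n, w (2 * i + 1) = w (2 * i)) ∧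
      ∀ q ∈ c, w (2 * q.1) * w (2 * q.2.1) + w (2 * q.2.2.1) * w 0 = w (2 * q.2.2.2) * w 0) ∧
      16 * (n * n) * (w 0 * w 0) = 1 := by
  have h1 : ∀ i < 2 * n, e (st n + ps n i) = w i := fun i hi => by
    have := ps_le hi
    rw [he _ (by unfold st; omega) (by unfold mx bl; omega), tg1 _ _ hi]
  have h2 : ∀ a < n, ∀ b < n, e (qi n a b) = -σ * (w (2 * a) * w (2 * b + 1)) := fun a ha b hb => by
    rw [he _ (qi_bd ha).1 (qi_bd ha).2, qi, tg2, coeff_C_mul,
      aut_off _ (by omega) (by omega) (by omega)]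
    ring
  have h3 := he (st n + bl n + ps n (2 * n)) (by unfold st; omega) (by unfold mx bl; omega)
  rw [tg2, coeff_C_mul, aut_ctr] at h3
  rw [and_assoc, and_assoc]
  refine and_congr (forall₂_congr fun i hi => ?_) Iff.rfl |>.trans (and_congr_right fun hd => ?_)
  · simp only [lv, List.map_cons, List.sum_cons, List.map_nil, List.sum_nil]
    rw [h1 _ (by omega), h1 _ (by omega)]
    constructor <;> intro h <;> push_cast at * <;> linarith
  refine and_congr (forall₂_congr fun q hq => ?_) ?_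
  · obtain ⟨a, b, d, f⟩ := hc q hq
    simp only [lv, List.map_cons, List.sum_cons, List.map_nil, List.sum_nil]
    rw [h2 _ a _ b, h2 _ d _ hn, h2 _ f _ hn, hd _ b, hd _ hn, ← mul_right_inj' hσ (b := _ + _ * w 0)]
    constructor <;> intro h <;> push_cast at * <;> linarith
  · have h4 : (((List.range n).map fun i => ((-2 : ℤ), qi n i i)).map
        fun t => (t.1 : ℝ) * e t.2).sum =
        σ * ∑ i ∈ range n, (w (2 * i) * w (2 * i) + w (2 * i + 1) * w (2 * i + 1)) := by
      rw [List.map_map, mul_sum]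
      refine sum_congr (s₁ := range n) rfl fun i hi => ?_
      have hi := mem_range.1 hi
      simp only [Function.comp]
      rw [h2 _ hi _ hi, hd _ hi]; push_cast; ring
    simp only [lv, List.map_cons, List.sum_cons]
    rw [h4, h3, h2 _ hn _ hn, hd _ hn, ← mul_right_inj' hσ (c := 1)]
    constructor <;> intro h <;> push_cast at * <;> linarith

theorem aut_nd (n w) : (aut n w).natDegree ≤ ps n (2 * n) + ps n (2 * n) ∧
    reflect (ps n (2 * n) + ps n (2 * n)) (aut n w) = aut n w := by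
  have h0 : (bp w (ps n) (2 * n)).natDegree ≤ ps n (2 * n) := bp_nd fun i => ps_le
  refine ⟨(natDegree_sub_le _ _).trans (max_le ((natDegree_X_pow_le _).trans (by omega))
    (nd_mul h0 (nd_refl h0))), ?_⟩
  rw [aut, reflect_sub, reflect_mul _ _ h0 (nd_refl h0), reflect_reflect, reflect_monomial,
    revAt_le (by omega), mul_comm (reflect _ _), Nat.add_sub_cancel]

theorem agree_iff {r x R M} : Agree r x R M ↔ ∀ m, 0 < m → m < M → mo r x m = R.coeff m := by
  refine ⟨fun h m h0 hm => ?_, fun h m hm => ?_⟩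
  · rw [mo, h m hm]; field_simp
  · rcases Nat.eq_zero_or_pos m with rfl | h0
    · simp [phi, tau, chP]
    · rw [← h m h0 hm, mo]; field_simp

theorem sys_sound {n c x} (hn : 0 < n) (hc : Bd n c)
    (h : ∀ L ∈ sys n c, lv (mo (bl n + ps n (2 * n)) x) L = 0) : FSol (n, c) := by
  obtain ⟨⟨h1, h2⟩, h3⟩ := sys_iff.1 h
  generalize he : mo (bl n + ps n (2 * n)) x = e at *
  let w := fun i => e (st n + ps n i)
  let β := bp (fun j => e (st n + bl n + j)) id (ps n (2 * n) + ps n (2 * n) + 1)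
  have b1 : β.natDegree ≤ ps n (2 * n) + ps n (2 * n) := bp_nd fun i hi => Nat.lt_succ_iff.1 hi
  have b2 : ∀ j ≤ ps n (2 * n) + ps n (2 * n), β.coeff j = e (st n + bl n + j) := fun j hj =>
    bp_at (p := id) Function.injective_id (Nat.lt_succ_of_le hj)
  have b3 : reflect (ps n (2 * n) + ps n (2 * n)) β = β := by
    ext j
    rw [coeff_reflect]
    rcases le_or_gt j (ps n (2 * n) + ps n (2 * n)) with hj | hj
    · have := h2 j hj
      simp [lv] at this
      rw [revAt_le hj, b2 _ hj, b2 _ (Nat.sub_le _ _)]; linarith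
    · rw [revAt_eq_self_of_lt hj]
  have ag : ∀ m, 0 < m → m < mx n → e m = (tg n w β).coeff m := fun m h0 hm => by
    by_cases a : ∀ i < 2 * n, m ≠ st n + ps n i
    · by_cases b : m < st n + bl n ∨ st n + bl n + (ps n (2 * n) + ps n (2 * n)) < m
      · rw [tg3 w b1 a b]; simpa [lv] using h1 m hm h0 a b
      · obtain ⟨j, rfl⟩ := Nat.exists_eq_add_of_le (show st n + bl n ≤ m by omega)
        rw [tg2, b2 _ (by omega)]
    · push Not at a
      obtain ⟨i, hi, rfl⟩ := a
      rw [tg1 _ _ hi]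
  obtain ⟨σ, hσ, e1⟩ : ∃ σ : ℝ, σ ≠ 0 ∧ β = C σ * aut n w := by
    rcases sound (l := bl n) (x := x) (Nat.lt_succ_self _) (bp_nd (w := w) fun i => ps_le) b1 b3
      (agree_iff.2 (he ▸ ag)) with h | h
    · exact ⟨1, one_ne_zero, by rw [h]; simp [aut]⟩
    · exact ⟨-1, by simp, by rw [h]; simp [aut]⟩
  obtain ⟨⟨-, h4⟩, h5⟩ := (eqs_iff hn hc hσ (e1 ▸ ag)).1 h3
  have h0 : w 0 ≠ 0 := fun h => by simp [h] at h5
  refine ⟨fun i => w (2 * i) / w 0, div_self h0, fun q hq => ?_⟩
  have := h4 q hq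
  field_simp
  linear_combination this

theorem sys_complete {n c} (hn : 0 < n) (hc : Bd n c) {u : ℕ → ℝ} (h0 : u 0 = 1) (hu : Sat u c)
    (hb : ∀ i, |u i| ≤ 1) : ∃ x, IsCut (2 * (bl n + ps n (2 * n))) x ∧
      mo (bl n + ps n (2 * n)) x 1 = 0 ∧ ∀ L ∈ sys n c, lv (mo (bl n + ps n (2 * n)) x) L = 0 := by
  have hn' : (0 : ℝ) < n := by exact_mod_cast hn
  let w := fun i => u (i / 2) / (4 * n)
  have hw : ∑ i ∈ range (2 * n), |w i| ≤ 1 / 2 := by
    refine (sum_le_card_nsmul _ _ (1 / (4 * n : ℝ)) fun i _ => ?_).trans_eq ?_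
    · rw [abs_div, abs_of_pos (by positivity : (0 : ℝ) < 4 * n)]; gcongr; exact hb _
    · simp; field_simp; norm_num
  obtain ⟨x, hx, h⟩ := complete (l := bl n) (Nat.succ_pos _) (fun i => ps_le (n := n)) hw
  have ag : ∀ m, 0 < m → m < mx n → mo (bl n + ps n (2 * n)) x m =
      (tg n w (C 1 * aut n w)).coeff m := by rw [map_one, one_mul]; exact agree_iff.1 h
  have d1 : (C 1 * aut n w).natDegree ≤ _ := (natDegree_C_mul_le _ _).trans (aut_nd n w).1
  refine ⟨x, hx, ?_, sys_iff.2 ⟨⟨fun m hm h1 a b => ?_, fun j hj => ?_⟩,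
    (eqs_iff hn hc one_ne_zero ag).2 ⟨⟨fun i _ => ?_, fun q hq => ?_⟩, ?_⟩⟩⟩
  · rw [ag 1 one_pos (by unfold mx st bl; omega), tg, coeff_X_pow_mul',
      if_neg (by unfold st bl; omega)]
  · simp [lv, ag m h1 hm, -map_one, tg3 w d1 a b]
  · have := congrArg (coeff · j) (aut_nd n w).2
    simp only [coeff_reflect, revAt_le hj] at this
    simp only [lv, List.map_cons, List.sum_cons, List.map_nil, List.sum_nil]
    rw [ag _ (by unfold st; omega) (by unfold mx bl; omega),
      ag _ (by unfold st; omega) (by unfold mx bl; omega), tg2, tg2, map_one, one_mul, this]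
    simp
  · simp only [w]; congr 2; omega
  · have := hu q hq
    simp only [w, Nat.mul_div_cancel_left _ two_pos, Nat.zero_div, h0]
    field_simp
    linear_combination this
  · simp only [w, Nat.zero_div, h0]; field_simp; norm_num

theorem phi_one (r x) : mo r x 1 = phi id r x := by
  simp only [mo, phi, tau, chP, map_sub, map_mul, aeval_C, aeval_X, map_one, id, sum_sub_distrib,
    ← mul_sum]
  simp; ring

theorem ch_erh : ERH (fun p : List (List ℚ) × Bin =>
    ∀ F ∈ p.1, MonotoneOn (pev F) (Set.Icc 0 1)) CH := by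
  have hp : PT fun p : ℕ × ℕ => ps p.1 p.2 := by unfold ps; fun_prop
  have e0 : pev [0, 1] = id := by funext t; simp [pev, sum_range_succ]
  refine bfma_erh.reduce (fun p => ([0, 1] :: (sys p.1 p.2).map (val (mx p.1)),
    Bin.mk (2 * (bl p.1 + ps p.1 (2 * p.1)))))
    (by unfold sys qi mx st bl ps; fun_prop) ?_
  rintro ⟨n, c⟩ ⟨h3, hc, hb⟩
  have hn : 0 < n := by simp only at h3; omega
  have hM : 1 < mx n := by unfold mx st bl; omega
  simp only [CH, List.forall_mem_cons, List.forall_mem_map, e0]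
  refine ⟨⟨fun _ _ _ _ h => h, fun L _ => val_mono hM L⟩, fun h => ?_, fun ⟨x, hx, h1, h2⟩ => ?_⟩
  · obtain ⟨u, h0, hu, hb⟩ := hb h
    obtain ⟨x, hx, h1, h2⟩ := sys_complete hn hc h0 hu hb
    rw [phi_one] at h1
    exact ⟨x, hx, (halves_iff hx _).2 h1, fun L hL =>
      (halves_iff hx _).2 ((phi_val hM h1 (sys_bd hn hc L hL)).2 (h2 L hL))⟩
  · exact sys_sound hn hc fun L hL => (phi_val hM ((halves_iff hx _).1 h1)
      (sys_bd hn hc L hL)).1 ((halves_iff hx _).1 (h2 L hL))

end Pool.Agent.H38.Chv
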