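import Pool.Agent.H38.Chv.Defs

/-!
Algebraic lemmas: rigidity of lacunary quotients `g / g♯`, logarithmic derivatives.
-/

namespace Pool.Agent.H38.Chv

open Polynomial

theorem nd_refl {N : ℕ} {p : ℝ[X]} (h : p.natDegree ≤ N) : (reflect N p).natDegree ≤ N :=
  natDegree_reflect_le.trans (max_le le_rfl h)

theorem refl_pow (N n : ℕ) {p : ℝ[X]} (h : p.natDegree ≤ N) :
    reflect (n + N) (X ^ n * p) = reflect N p := by
  rw [reflect_mul _ _ (natDegree_X_pow_le n) h, reflect_monomial, revAt_le le_rfl]; simp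

theorem refl_up (N n : ℕ) {p : ℝ[X]} (h : p.natDegree ≤ N) :
    reflect (n + N) p = X ^ n * reflect N p := by
  have := reflect_mul (1 : ℝ[X]) p (F := n) (by simp) h
  rwa [one_mul, reflect_one] at this

theorem nd_of_pow {n N : ℕ} {p : ℝ[X]} (h : (X ^ n * p).natDegree ≤ n + N) : p.natDegree ≤ N := by
  rcases eq_or_ne p 0 with rfl | h0
  · simp
  · rw [natDegree_X_pow_mul n h0] at h; omega

theorem nd_mul {p q : ℝ[X]} {a b : ℕ} (hp : p.natDegree ≤ a) (hq : q.natDegree ≤ b) :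
    (p * q).natDegree ≤ a + b := natDegree_mul_le.trans (Nat.add_le_add hp hq)

theorem zero_of_dvd {n : ℕ} {p : ℝ[X]} (h : X ^ n ∣ p) (hd : p.natDegree < n) : p = 0 :=
  eq_zero_of_dvd_of_natDegree_lt h (by rwa [natDegree_X_pow])

theorem rigid {τ l : ℕ} (hl : 3 * τ < l) {g β₀ β₁ : ℝ[X]} (hg : g.natDegree ≤ l + τ) (g0 : g ≠ 0)
    (h0 : β₀.natDegree ≤ τ) (h1 : β₁.natDegree ≤ τ + τ) (hp : reflect (τ + τ) β₁ = β₁)
    (h : X ^ (l + l) ∣ g - (β₀ + X ^ l * β₁) * reflect (l + τ) g) :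
    β₁ = X ^ τ - β₀ * reflect τ β₀ ∨ β₁ = -(X ^ τ - β₀ * reflect τ β₀) := by
  have hG := nd_refl hg
  have G0 : reflect (l + τ) g ≠ 0 := by rwa [Ne, reflect_eq_zero_iff]
  have rG : reflect (l + τ) (reflect (l + τ) g) = g := reflect_reflect
  generalize reflect (l + τ) g = G at *
  have hW := modByMonic_add_div (β₁ * G) (X ^ l)
  have hA := natDegree_modByMonic_lt (β₁ * G) (monic_X_pow l) (fun h => by
    have := congrArg natDegree h; simp at this; omega)
  rw [natDegree_X_pow] at hA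
  have hA1 : (β₁ * G /ₘ X ^ l).natDegree ≤ τ + (τ + τ) := by
    rw [natDegree_divByMonic _ (monic_X_pow l), natDegree_X_pow]
    have := nd_mul h1 hG; omega
  generalize β₁ * G %ₘ X ^ l = A at *
  generalize β₁ * G /ₘ X ^ l = A₁ at *
  have d1 := nd_mul h0 hG
  have d2 := nd_mul (natDegree_X_pow_le (R := ℝ) l) (le_refl A.natDegree)
  have e1 : g - β₀ * G - X ^ l * A = 0 := by
    refine zero_of_dvd (n := l + l) ?_ ?_
    · obtain ⟨K, hK⟩ := h
      exact ⟨K + A₁, by rw [pow_add] at *; linear_combination hK - X ^ l * hW⟩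
    · have := natDegree_sub_le (g - β₀ * G) (X ^ l * A)
      have := natDegree_sub_le g (β₀ * G)
      omega
  have dA : A.natDegree ≤ τ + τ := nd_of_pow (n := l) (by
    rw [show X ^ l * A = g - β₀ * G by linear_combination -e1]
    have := natDegree_sub_le g (β₀ * G)
    omega)
  have e2 := congrArg (reflect (τ + τ + (l + τ))) hW
  rw [reflect_mul _ _ h1 hG, hp, rG, reflect_add, show τ + τ + (l + τ) = l + τ + (τ + τ) by omega,
    refl_up _ _ dA, add_assoc, refl_pow _ _ hA1, pow_add] at e2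
  have e3 : reflect (τ + (τ + τ)) A₁ - β₀ * A = 0 := by
    refine zero_of_dvd (n := l) ⟨β₀ * A₁ + β₁ * A - X ^ τ * reflect (τ + τ) A, ?_⟩ ?_
    · linear_combination e2 + β₁ * e1 - β₀ * hW
    · have := natDegree_sub_le (reflect (τ + (τ + τ)) A₁) (β₀ * A)
      have := nd_refl hA1
      have := nd_mul h0 dA
      omega
  have e4 : β₀ * A₁ + β₁ * A - X ^ τ * reflect (τ + τ) A = 0 :=
    mul_left_cancel₀ (pow_ne_zero l X_ne_zero)
      (by linear_combination e3 - e2 - β₁ * e1 + β₀ * hW)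
  have e5 : A₁ = reflect τ β₀ * reflect (τ + τ) A := by
    rw [← reflect_mul _ _ h0 dA, ← sub_eq_zero.1 e3, reflect_reflect]
  have hP : reflect (τ + τ) (X ^ τ - β₀ * reflect τ β₀) = X ^ τ - β₀ * reflect τ β₀ := by
    rw [reflect_sub, reflect_mul _ _ h0 (nd_refl h0), reflect_reflect, reflect_monomial,
      revAt_le (by omega), mul_comm, Nat.add_sub_cancel]
  have dP : (X ^ τ - β₀ * reflect τ β₀ : ℝ[X]).natDegree ≤ τ + τ := by
    have := natDegree_sub_le (X ^ τ) (β₀ * reflect τ β₀)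
    have := nd_mul h0 (nd_refl h0)
    have := natDegree_X_pow_le (R := ℝ) τ
    omega
  have e6 : (X ^ τ - β₀ * reflect τ β₀) * reflect (τ + τ) A = β₁ * A := by
    linear_combination β₀ * e5 - e4
  have e7 := congrArg (reflect (τ + τ + (τ + τ))) e6
  rw [reflect_mul _ _ dP (nd_refl dA), reflect_mul _ _ h1 dA, hP, hp, reflect_reflect] at e7
  rcases eq_or_ne A 0 with rfl | hA0
  · have e8 : g = β₀ * G := by linear_combination e1
    have e9 := congrArg (reflect (τ + (l + τ))) e8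
    rw [refl_up _ _ hg, reflect_mul _ _ h0 hG, rG] at e9
    have e10 : reflect (l + τ) g = G := by rw [← rG, reflect_reflect]
    rw [reflect_zero, mul_zero] at e5
    rw [e10] at e9
    left
    exact mul_right_cancel₀ G0 (by
      linear_combination -hW + X ^ l * e5 - e9 - reflect τ β₀ * e8)
  · rw [← sq_eq_sq_iff_eq_or_eq_neg]
    exact mul_right_cancel₀ hA0 (by
      linear_combination -β₁ * e6 - (X ^ τ - β₀ * reflect τ β₀) * e7)

open PowerSeries in
theorem ld_key {G B CN CD : ℝ⟦X⟧} (hG : G ≠ 0)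
    (hN : PowerSeries.X * d⁄dX ℝ (G - B * G) = -CN * (G - B * G))
    (hD : PowerSeries.X * d⁄dX ℝ (G + B * G) = -CD * (G + B * G)) :
    2 * (PowerSeries.X * d⁄dX ℝ B) = (CN - CD) * (1 - B ^ 2) := by
  rw [map_sub, Derivation.leibniz, smul_eq_mul, smul_eq_mul] at hN
  rw [map_add, Derivation.leibniz, smul_eq_mul, smul_eq_mul] at hD
  exact mul_left_cancel₀ hG (by linear_combination (1 - B) * hD - (1 + B) * hN)

open PowerSeries in
theorem co_xd (B : ℝ⟦X⟧) (m : ℕ) :
    PowerSeries.coeff m (2 * (PowerSeries.X * d⁄dX ℝ B)) = 2 * m * PowerSeries.coeff m B := by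
  rw [two_mul, map_add]
  cases m with
  | zero => simp
  | succ m => rw [coeff_succ_X_mul, PowerSeries.coeff_derivative]; push_cast; ring

open PowerSeries in
theorem ld_ord {B C : ℝ⟦X⟧} {s : ℕ} (h : 2 * (PowerSeries.X * d⁄dX ℝ B) = C * (1 - B ^ 2))
    (h0 : PowerSeries.coeff 0 B = 0) (hs : PowerSeries.X ^ s ∣ C ∨ PowerSeries.X ^ s ∣ B) :
    ∀ m < 3 * s, PowerSeries.coeff m C = 2 * m * PowerSeries.coeff m B := by
  have hB : PowerSeries.X ^ s ∣ B := hs.elim (fun hs => by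
    have := PowerSeries.X_pow_dvd_iff.1 (h ▸ hs.mul_right (1 - B ^ 2))
    refine PowerSeries.X_pow_dvd_iff.2 fun m hm => ?_
    rcases Nat.eq_zero_or_pos m with rfl | h1
    · exact h0
    · have := this m hm
      rw [co_xd] at this
      exact (mul_eq_zero.1 this).resolve_left (by positivity)) id
  have hC : PowerSeries.X ^ s ∣ C := by
    have u : IsUnit (1 - B ^ 2) := by
      rw [PowerSeries.isUnit_iff_constantCoeff]
      rw [coeff_zero_eq_constantCoeff_apply] at h0
      simp [h0]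
    rw [← u.dvd_mul_right, ← h]
    exact PowerSeries.X_pow_dvd_iff.2 fun m hm => by
      rw [co_xd, PowerSeries.X_pow_dvd_iff.1 hB m hm, mul_zero]
  intro m hm
  have h3 : PowerSeries.X ^ (3 * s) ∣ C * B ^ 2 := by
    rw [show 3 * s = s + s * 2 by omega, pow_add, pow_mul]
    exact mul_dvd_mul hC (pow_dvd_pow_of_dvd hB 2)
  rw [← co_xd, h, mul_sub, mul_one, map_sub, PowerSeries.X_pow_dvd_iff.1 h3 m hm, sub_zero]

end Pool.Agent.H38.Chv
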