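import Pool.Agent.H38.Chv.Rig

/-!
Shifted Chebyshev polynomials and the power series attached to a cut.
-/

namespace Pool.Agent.H38.Chv

open Polynomial Finset

/-- shifted Chebyshev polynomials `T_m (2 t - 1)` -/
noncomputable def chP : ℕ → ℤ[X]
  | 0 => 1
  | 1 => C 2 * X - 1
  | m + 2 => C 4 * (X * chP (m + 1)) - C 2 * chP (m + 1) - chP m

/-- their values -/
noncomputable def tau (m : ℕ) (t : ℝ) : ℝ := aeval t (chP m)

/-- generating series -/
noncomputable def Ts (t : ℝ) : PowerSeries ℝ := PowerSeries.mk fun m => tau m t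

/-- the quadratic factor of a cut point -/
noncomputable def qd (t : ℝ) : ℝ[X] := X ^ 2 - C (2 * (2 * t - 1)) * X + 1

theorem coe_qd (t : ℝ) : (qd t : PowerSeries ℝ) =
    PowerSeries.X ^ 2 - 2 * PowerSeries.C (2 * t - 1) * PowerSeries.X + 1 := by
  simp only [qd, Polynomial.coe_add, Polynomial.coe_sub, Polynomial.coe_mul, Polynomial.coe_pow,
    Polynomial.coe_X, Polynomial.coe_C, Polynomial.coe_one]
  rw [map_mul, map_ofNat]

theorem gen (t : ℝ) : (qd t : PowerSeries ℝ) * Ts t =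
    1 - PowerSeries.C (2 * t - 1) * PowerSeries.X := by
  have : (qd t : PowerSeries ℝ) * Ts t = PowerSeries.X * (PowerSeries.X * Ts t) -
      PowerSeries.C (2 * (2 * t - 1)) * (PowerSeries.X * Ts t) + Ts t := by
    rw [coe_qd, map_mul _ 2, map_ofNat]; ring
  rw [this]
  ext m
  simp only [map_add, map_sub (PowerSeries.coeff m), PowerSeries.coeff_C_mul]
  rcases m with _ | _ | m
  · simp [Ts, tau, chP]
  · simp [Ts, tau, chP, PowerSeries.coeff_succ_X_mul, PowerSeries.coeff_one, map_ofNat]; ring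
  · simp [Ts, tau, chP, PowerSeries.coeff_succ_X_mul, PowerSeries.coeff_one, PowerSeries.coeff_X,
      map_ofNat]
    ring

/-- logarithmic derivative relation -/
def LD (f : ℝ[X]) (c : PowerSeries ℝ) : Prop :=
  PowerSeries.X * PowerSeries.derivative ℝ (f : PowerSeries ℝ) = -c * (f : PowerSeries ℝ)

theorem LD.mul {f g c d} (h : LD f c) (h' : LD g d) : LD (f * g) (c + d) := by
  unfold LD at *
  rw [Polynomial.coe_mul, Derivation.leibniz, smul_eq_mul, smul_eq_mul]
  linear_combination (g : PowerSeries ℝ) * h + (f : PowerSeries ℝ) * h'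

theorem ld_qd (t : ℝ) : LD (qd t) (2 * (Ts t - 1)) := by
  have := gen t
  have e : PowerSeries.derivative ℝ (qd t : PowerSeries ℝ) =
      2 * PowerSeries.X - 2 * PowerSeries.C (2 * t - 1) := by
    rw [coe_qd, two_mul (PowerSeries.C _), add_mul, sq]
    simp only [map_add, map_sub (PowerSeries.derivative ℝ), Derivation.leibniz,
      PowerSeries.derivative_X, PowerSeries.derivative_C, PowerSeries.derivative_one, smul_eq_mul]
    ring
  rw [LD, e]
  rw [coe_qd] at this ⊢
  linear_combination 2 * this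

theorem ld_prod (a : ℕ → ℝ) (r : ℕ) :
    LD (∏ i ∈ range r, qd (a i)) (∑ i ∈ range r, 2 * (Ts (a i) - 1)) := by
  induction r with
  | zero => simp [LD]
  | succ r ih => rw [prod_range_succ, sum_range_succ]; exact ih.mul (ld_qd _)

theorem ld_lin {ε : ℝ} (h : ε * ε = 1) : LD (1 + C ε * X) (Ts ((1 - ε) / 2) - 1) := by
  have := gen ((1 - ε) / 2)
  have e : PowerSeries.C ε * PowerSeries.C ε = 1 := by rw [← map_mul, h, map_one]
  have h0 : (1 + PowerSeries.C ε * PowerSeries.X : PowerSeries ℝ) ≠ 0 := fun h => by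
    simpa using congrArg PowerSeries.constantCoeff h
  rw [coe_qd, show 2 * ((1 - ε) / 2) - 1 = -ε by ring, map_neg] at this
  simp only [LD, Polynomial.coe_add, Polynomial.coe_mul, Polynomial.coe_X, Polynomial.coe_C,
    Polynomial.coe_one, map_add, Derivation.leibniz, PowerSeries.derivative_X,
    PowerSeries.derivative_C, PowerSeries.derivative_one, smul_eq_mul]
  exact mul_left_cancel₀ h0 (by
    linear_combination this + PowerSeries.X ^ 2 * Ts ((1 - ε) / 2) * e)

/-- the value of `F (A₊) - F (A₋)` for a `2 r`-cut -/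
noncomputable def phi (F : ℝ → ℝ) (r : ℕ) (x : ℕ → ℝ) : ℝ :=
  F 1 - F 0 + 2 * ∑ i ∈ range r, (F (x (2 * i + 1)) - F (x (2 * i + 2)))

/-- the polynomial of the odd cut points -/
noncomputable def pN (r : ℕ) (x : ℕ → ℝ) : ℝ[X] :=
  (1 + C (-1) * X) * ∏ i ∈ range r, qd (x (2 * i + 1))

/-- the polynomial of the even cut points -/
noncomputable def pD (r : ℕ) (x : ℕ → ℝ) : ℝ[X] :=
  (1 + C 1 * X) * ∏ i ∈ range r, qd (x (2 * i + 2))

theorem rel {r s x} {G H : ℝ[X]} (hN : G - H = pN r x) (hD : G + H = pD r x) :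
    G.coeff 0 = 1 ∧ ∃ B : PowerSeries ℝ, B * G = H ∧ PowerSeries.coeff 0 B = 0 ∧
      ((∀ m < s, phi (tau m) r x = 0) ∨ PowerSeries.X ^ s ∣ B →
        ∀ m < 3 * s, phi (tau m) r x = 2 * m * PowerSeries.coeff m B) := by
  have n0 : (pN r x).coeff 0 = 1 := by simp [pN, qd, coeff_zero_eq_eval_zero, eval_prod]
  have d0 : (pD r x).coeff 0 = 1 := by simp [pD, qd, coeff_zero_eq_eval_zero, eval_prod]
  rw [← hN, coeff_sub] at n0
  rw [← hD, coeff_add] at d0
  have g0 : G.coeff 0 = 1 := by linarith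
  have g1 : PowerSeries.constantCoeff (G : PowerSeries ℝ) = 1 := by
    rw [← PowerSeries.coeff_zero_eq_constantCoeff_apply, coeff_coe, g0]
  have e : (H * (G : PowerSeries ℝ)⁻¹) * G = H := by
    rw [mul_assoc, PowerSeries.inv_mul_cancel _ (by simp [g1]), mul_one]
  generalize (H * (G : PowerSeries ℝ)⁻¹) = B at *
  have b0 : PowerSeries.coeff 0 B = 0 := by
    have := congrArg PowerSeries.constantCoeff e
    rw [map_mul, g1, mul_one, ← PowerSeries.coeff_zero_eq_constantCoeff_apply (H : PowerSeries ℝ),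
      coeff_coe] at this
    rw [PowerSeries.coeff_zero_eq_constantCoeff_apply, this]; linarith
  refine ⟨g0, B, e, b0, fun hs => ?_⟩
  have lN : LD (pN r x) _ := (ld_lin (by simp)).mul (ld_prod _ r)
  have lD : LD (pD r x) _ := (ld_lin (by simp)).mul (ld_prod _ r)
  rw [← hN, LD, Polynomial.coe_sub, ← e] at lN
  rw [← hD, LD, Polynomial.coe_add, ← e] at lD
  have key := ld_key (fun h => by simp [h] at g1) lN lD
  generalize hc : (_ - _ : PowerSeries ℝ) = c at key
  have hc' : ∀ m, PowerSeries.coeff m c = phi (tau m) r x := fun m => by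
    rw [← hc, add_sub_add_comm, ← sum_sub_distrib, map_add, map_sum, phi, mul_sum]
    congr 1
    · simp [Ts]
    · refine sum_congr rfl fun i _ => ?_
      rw [← mul_sub, sub_sub_sub_cancel_right, two_mul (_ : PowerSeries ℝ), two_mul (_ : ℝ)]
      simp [Ts]
  simp only [← hc'] at hs ⊢
  exact ld_ord key b0 (hs.imp_left PowerSeries.X_pow_dvd_iff.2)

theorem qd_nd (t : ℝ) : (qd t).natDegree = 2 := by unfold qd; compute_degree!

theorem qd_monic (t : ℝ) : (qd t).Monic := by unfold qd; monicity!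

theorem refl_prod (a : ℕ → ℝ) (r : ℕ) : (∏ i ∈ range r, qd (a i)).natDegree = 2 * r ∧
    reflect (2 * r) (∏ i ∈ range r, qd (a i)) = ∏ i ∈ range r, qd (a i) := by
  have h : ∀ r, (∏ i ∈ range r, qd (a i)).natDegree = 2 * r := fun r => by
    rw [natDegree_prod_of_monic _ _ fun i _ => qd_monic _]; simp [qd_nd, mul_comm]
  refine ⟨h r, ?_⟩
  induction r with
  | zero => simp
  | succ r ih =>
    rw [prod_range_succ, mul_add, reflect_mul _ _ (h r).le (qd_nd _).le, ih]
    congr 1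
    have := reflect_monomial (R := ℝ) 2 1
    rw [pow_one] at this
    rw [qd, reflect_add, reflect_sub, reflect_C_mul, reflect_monomial, this, reflect_one,
      revAt_le le_rfl, revAt_le one_le_two]
    simp only [tsub_self, pow_zero, Nat.add_one_sub_one, pow_one]
    ring

theorem refl_lin (a : ℕ → ℝ) (r : ℕ) (ε : ℝ) :
    ((1 + C ε * X) * ∏ i ∈ range r, qd (a i)).natDegree ≤ 1 + 2 * r ∧
    reflect (1 + 2 * r) ((1 + C ε * X) * ∏ i ∈ range r, qd (a i)) =
      (X + C ε) * ∏ i ∈ range r, qd (a i) := by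
  have h : (1 + C ε * X : ℝ[X]).natDegree ≤ 1 := by compute_degree
  refine ⟨nd_mul h (refl_prod a r).1.le, ?_⟩
  rw [reflect_mul _ _ h (refl_prod a r).1.le, (refl_prod a r).2, reflect_add, reflect_C_mul,
    reflect_one, reflect_one_X, pow_one, mul_one]

/-- The Chebyshev moments of the cut agree with the coefficients of `R` below `M`. -/
def Agree (r : ℕ) (x : ℕ → ℝ) (R : ℝ[X]) (M : ℕ) : Prop :=
  ∀ m < M, phi (tau m) r x = 2 * m * R.coeff m

theorem sound {τ l x} (hl : 3 * τ < l) {β₀ β₁ : ℝ[X]}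
    (h0 : β₀.natDegree ≤ τ) (h1 : β₁.natDegree ≤ τ + τ) (hp : reflect (τ + τ) β₁ = β₁)
    (h : Agree (l + τ) x (X ^ (l + τ + 1) * (β₀ + X ^ l * β₁)) (l + τ + 1 + (l + l))) :
    β₁ = X ^ τ - β₀ * reflect τ β₀ ∨ β₁ = -(X ^ τ - β₀ * reflect τ β₀) := by
  obtain ⟨n1, n2⟩ := refl_lin (fun i => x (2 * i + 1)) (l + τ) (-1)
  obtain ⟨d1, d2⟩ := refl_lin (fun i => x (2 * i + 2)) (l + τ) 1
  have n3 : reflect (1 + 2 * (l + τ)) (pN (l + τ) x) = -pN (l + τ) x := by
    rw [pN, n2]; simp only [map_neg, map_one]; ring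
  have d3 : reflect (1 + 2 * (l + τ)) (pD (l + τ) x) = pD (l + τ) x := by
    rw [pD, d2]; simp only [map_one]; ring
  change (pN (l + τ) x).natDegree ≤ _ at n1
  change (pD (l + τ) x).natDegree ≤ _ at d1
  have c2 : (C (1 / 2) * 2 : ℝ[X]) = 1 := by rw [← map_ofNat C 2, ← map_mul]; norm_num
  obtain ⟨g0, B, e, b0, hB⟩ := rel (r := l + τ) (s := l + τ + 1) (x := x)
    (G := C (1 / 2) * (pD (l + τ) x + pN (l + τ) x))
    (H := C (1 / 2) * (pD (l + τ) x - pN (l + τ) x))
    (by linear_combination pN (l + τ) x * c2) (by linear_combination pD (l + τ) x * c2)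
  have rH : reflect (1 + 2 * (l + τ)) (C (1 / 2) * (pD (l + τ) x - pN (l + τ) x)) =
      C (1 / 2) * (pD (l + τ) x + pN (l + τ) x) := by
    rw [reflect_C_mul, reflect_sub, n3, d3, sub_neg_eq_add]
  have dH : (C (1 / 2) * (pD (l + τ) x - pN (l + τ) x)).natDegree ≤ 1 + 2 * (l + τ) :=
    (natDegree_C_mul_le _ _).trans ((natDegree_sub_le _ _).trans (max_le d1 n1))
  generalize C (1 / 2) * (pD (l + τ) x + pN (l + τ) x) = G at *
  generalize C (1 / 2) * (pD (l + τ) x - pN (l + τ) x) = H at *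
  have hB := hB (.inl fun m hm => by rw [h m (by omega), coeff_X_pow_mul', if_neg (by omega)]; simp)
  have dv : X ^ (l + τ + 1 + (l + l)) ∣ H - X ^ (l + τ + 1) * (β₀ + X ^ l * β₁) * G := by
    have : PowerSeries.X ^ (l + τ + 1 + (l + l)) ∣
        B - ((X ^ (l + τ + 1) * (β₀ + X ^ l * β₁) : ℝ[X]) : PowerSeries ℝ) :=
      PowerSeries.X_pow_dvd_iff.2 fun m hm => by
        rw [map_sub, coeff_coe, sub_eq_zero]
        rcases Nat.eq_zero_or_pos m with rfl | h1
        · rw [b0, coeff_X_pow_mul', if_neg (by omega)]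
        · exact mul_left_cancel₀ (a := 2 * (m : ℝ)) (by positivity)
            ((hB m (by omega)).symm.trans (h m hm))
    have := PowerSeries.X_pow_dvd_iff.1 (this.mul_right (G : PowerSeries ℝ))
    refine X_pow_dvd_iff.2 fun m hm => ?_
    rw [← this m hm, sub_mul, e, ← Polynomial.coe_mul, ← Polynomial.coe_sub, coeff_coe]
  obtain ⟨g, rfl⟩ : X ^ (l + τ + 1) ∣ H := by
    have := (dvd_add ((pow_dvd_pow _ (Nat.le_add_right _ _)).trans dv)
      ((dvd_mul_right (X ^ (l + τ + 1)) (β₀ + X ^ l * β₁)).mul_right G))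
    rwa [sub_add_cancel] at this
  rw [show 1 + 2 * (l + τ) = l + τ + 1 + (l + τ) by omega] at rH dH
  rw [refl_pow _ _ (nd_of_pow dH)] at rH
  subst rH
  refine rigid hl (nd_of_pow dH) (by rintro rfl; simp at g0) h0 h1 hp ?_
  rwa [pow_add _ (l + τ + 1), mul_assoc, ← mul_sub,
    mul_dvd_mul_iff_left (pow_ne_zero _ X_ne_zero)] at dv

end Pool.Agent.H38.Chv
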